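import Pool.Agent.N375.AV.D
import Pool.Agent.K6.H40.Campana

/-!
# Integral points of C-pairs of general type on the line near the values of compositions of additive functions

Let `K` be a number field of degree `D`, `S` a finite set of primes of `K` and `m_0, m_1, m_2 ∈ {1, 2, …, ∞}` with
`σ = 1 / m_0 + 1 / m_1 + 1 / m_2 < 1`, so that the C-pair
`Δ = (1 - 1 / m_0) (0) + (1 - 1 / m_1) (1) + (1 - 1 / m_2) (∞)` on the projective line is of general type. Let
`s = min (4 σ / 7) (20 / 37)`, and `H_K(x) = exp (D h(x))` the relative height, `h` the absolute logarithmic height.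

Let `F = f_1 ∘ ⋯ ∘ f_k` be a composition of functions dominated by the largest prime factor: for example additive functions
`f` with `f (q ^ j) ≤ C q ^ j` at the prime powers and different values at different large primes (the sum of the prime
factors, with or without multiplicity), the largest prime factor itself, and Kempner's function. Let `G` have steps bounded
below by a positive constant and growth at most `v ^ d`, for example `α v ^ d` with `α > 0`, `d ≥ 1`. If `d s + κ < 1`, then
for all `n ≤ N` but `K N exp (- c₀ (log N) ^ (1 / (k + 1)))` there is NO `S`-integral point `x ∈ K` of the C-pair with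
`|H_K(x) - G (F n)| ≤ F(n) ^ κ`.

The number `F(n)` is in general much smaller than `n` and the values of `F` are taken with very large multiplicities, and so
this does not follow from the number of these objects alone.

Proof. By the starting theorem `OrbifoldLines` of this problem the C-pair has at most `X ^ (s + ε)` integral points of
relative height at most `X`. The preimage of a set with at most `K X exp (- c (log X) ^ β)`
elements up to `X` under a function dominated by the largest prime factor has at most `K' X exp (- c' (log X) ^ (β / (1 + β)))`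
elements (tool of helper375, `N375/AV`).
-/

set_option autoImplicit false

namespace Pool.Agent.Results.MP_464c42_nt.AdditiveValues

open Pool.Agent.N733.TG (Expanding expanding_pow)
open Pool.Agent.N375.AV (PD comp windows pd_additive pd_sopfr pd_largest pd_kempner)
open NumberField IsDedekindDomain
open Pool.Agent.Results.MP_464c42_nt.HeightWindows (recip IsIntegral height)
open Pool.Agent.K6.H40.Campana (s_nonneg relHeight count)

/-- **Integral points of C-pairs of general type on the line near the values of compositions of additive functions.** Let `K` be a number field, `S` a finite set of primes and `m_0, m_1, m_2 ∈ {1, 2, …, ∞}` with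
`σ = 1 / m_0 + 1 / m_1 + 1 / m_2 < 1`, `s = min (4 σ / 7) (20 / 37)`. Let `F = f_1 ∘ ⋯ ∘ f_k` with
`f_i` dominated by the largest prime factor. Let `G` have steps `≥ a > 0` and growth at most `v ^ d`, `κ ≥ 0` and
`d s + κ < 1`. There are `c₀ > 0` and `K₀` such that for every `N ≥ 1`, for all `n ≤ N` but
`K₀ N exp (- c₀ (log N) ^ (1 / (k + 1)))`, there is no `S`-integral point `x ∈ K` of the C-pair with `|H_K(x) - G (F n)| ≤ F(n) ^ κ`. The
additive functions with `f (q ^ j) ≤ C q ^ j` which are injective at the large primes, the sum of the prime factors with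
multiplicity, the largest prime factor and Kempner's function are examples of such functions `f_i`, and `α v ^ d` with
`α > 0`, `d ≥ 1` is an example of `G`. -/
theorem result :
    (∀ (K : Type) [Field K] [NumberField K] (S : Finset (HeightOneSpectrum (𝓞 K))) (m : Fin 3 → ℕ∞),
      (∀ i, 1 ≤ m i) → ∑ i, recip (m i) < 1 → ∀ fs : List (ℕ → ℕ), (∀ f ∈ fs, PD f) → ∀ (G : ℕ → ℝ) (d : ℝ), Expanding G d → ∀ κ : ℝ, 0 ≤ κ →
      d * (min (4 * (∑ i, recip (m i)) / 7) (20 / 37)) + κ < 1 → ∃ c₀ K₀ : ℝ, 0 < c₀ ∧ ∀ N : ℕ, 1 ≤ N →
      ({n : ℕ | 1 ≤ n ∧ n ≤ N ∧ ∃ x : K, IsIntegral S m x ∧ |relHeight x - G (comp fs n)| ≤ (comp fs n : ℝ) ^ κ}.ncard : ℝ) ≤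
        K₀ * N * Real.exp (-(c₀ * Real.log N ^ ((1 : ℝ) / (fs.length + 1))))) ∧
    ((∀ f : ℕ → ℕ, (∀ a b : ℕ, Nat.Coprime a b → f (a * b) = f a + f b) →
        (∃ C : ℕ, ∀ q j : ℕ, q.Prime → 1 ≤ j → f (q ^ j) ≤ C * q ^ j) →
        (∃ P : ℕ, ∀ p q : ℕ, p.Prime → q.Prime → P ≤ p → P ≤ q → f p = f q → p = q) → PD f) ∧
      PD (fun n => n.primeFactorsList.sum) ∧ PD (fun n => n.primeFactors.sup id) ∧
      PD (fun n => sInf {k : ℕ | n ∣ k.factorial})) ∧
    ∀ α d : ℝ, 0 < α → 1 ≤ d → Expanding (fun v => α * (v : ℝ) ^ d) d := by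
  refine ⟨fun K _ _ S m hm hσ fs hfs G d hG κ hκ h1 => ?_, ⟨fun _ h1 h2 h3 => pd_additive h1 h2 h3, pd_sopfr, pd_largest, pd_kempner⟩, fun α d hα hd => expanding_pow hα hd⟩
  obtain ⟨c₀, K₀, hc₀, hN₀⟩ := windows {x : K | IsIntegral S m x} (fun x => relHeight x) fs hfs hG (s := min (4 * (∑ i, recip (m i)) / 7) (20 / 37)) (κ := κ)
    (s_nonneg m) hκ h1 (count K S m hm hσ)
  exact ⟨c₀, K₀, hc₀, fun N hN => hN₀ N hN⟩

end Pool.Agent.Results.MP_464c42_nt.AdditiveValues
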