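import Pool.Agent.K6.H40.RandNear
import Pool.Agent.K6.H40.Campana

/-!
# Integral points of C-pairs of general type on the line near the elements of random sets

Let `K` be a number field of degree `D`, `S` a finite set of primes of `K` and `m_0, m_1, m_2 ∈ {1, 2, …, ∞}` with
`σ = 1 / m_0 + 1 / m_1 + 1 / m_2 < 1`, so that the C-pair
`Δ = (1 - 1 / m_0) (0) + (1 - 1 / m_1) (1) + (1 - 1 / m_2) (∞)` on the projective line is of general type. Let
`s = min (4 σ / 7) (20 / 37)`, and `H_K(x) = exp (D h(x))` the relative height, `h` the absolute logarithmic height.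

Let `A` be a random set of positive integers such that `n` belongs to `A` with probability at most `D n ^ (-γ)` (no
independence is assumed). Let `G` be a function with steps bounded below by a positive constant and growth at most `v ^ d`,
for example `a v ^ d`, and `0 ≤ κ ≤ 1`. If `d s + κ < γ`, then almost surely, for all but finitely many `n ∈ A`, there is NO
`S`-integral point `x ∈ K` of the C-pair with `|H_K(x) - G n| ≤ n ^ κ`; the probability that this is false for some `n ≥ y` of `A` is at most
`B y ^ (-η)` if `d s + κ + η < γ`.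

Proof. By the starting theorem `OrbifoldLines` of this problem the C-pair has at most `X ^ (s + ε)` integral points of
relative height at most `X`. So the `n` such that there is one of them near `G n` form a set with `O (X ^ (d s + κ + ε))` elements up
to `X` (`N671/DA` of helper671), and the lemma of Borel and Cantelli applies (`K6/H40/RandNear`).
-/

set_option autoImplicit false

namespace Pool.Agent.Results.MP_464c42_nt.RandomSets

open MeasureTheory
open Pool.Agent.N671.DA (Expanding expanding_pow)
open Pool.Agent.K6.H40.RandNear (Sparse rand_windows)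
open NumberField IsDedekindDomain
open Pool.Agent.Results.MP_464c42_nt.HeightWindows (recip IsIntegral height)
open Pool.Agent.K6.H40.Campana (s_nonneg relHeight count)

/-- **Integral points of C-pairs of general type on the line near the elements of random sets.** Let `K` be a number field, `S` a finite set of primes and `m_0, m_1, m_2 ∈ {1, 2, …, ∞}` with
`σ = 1 / m_0 + 1 / m_1 + 1 / m_2 < 1`, `s = min (4 σ / 7) (20 / 37)`. Let `G` have steps `≥ a > 0` and growth at most
`v ^ d`, `0 ≤ κ ≤ 1`, and let `A` be a random set of positive integers with `P (n ∈ A) ≤ D n ^ (-γ)` (`Sparse P A γ D`). (1) If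
`d s + κ < γ`, then almost surely, for all large `n ∈ A`, there is no `S`-integral point `x ∈ K` of the C-pair with `|H_K(x) - G n| ≤ n ^ κ`. (2) If
`d s + κ + η < γ`, `η ≥ 0`, this is false for some `n ∈ A`, `n ≥ y`, with probability at most `B y ^ (-η)`. The functions
`a v ^ d` with `a > 0`, `d ≥ 1` are examples of `G`. -/
theorem result :
    (∀ (K : Type) [Field K] [NumberField K] (S : Finset (HeightOneSpectrum (𝓞 K))) (m : Fin 3 → ℕ∞),
      (∀ i, 1 ≤ m i) → ∑ i, recip (m i) < 1 → ∀ (G : ℕ → ℝ) (d : ℝ), Expanding G d → ∀ κ : ℝ, 0 ≤ κ → κ ≤ 1 →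
      ∀ (Ω : Type) [MeasurableSpace Ω] (P : Measure Ω) (A : Ω → Set ℕ) (γ D : ℝ), Sparse P A γ D →
      (d * (min (4 * (∑ i, recip (m i)) / 7) (20 / 37)) + κ < γ → ∀ᵐ ω ∂P, ∃ N : ℕ, ∀ n ∈ A ω, N ≤ n → ∀ x : K, IsIntegral S m x →
        ¬ |relHeight x - G n| ≤ (n : ℝ) ^ κ) ∧
      ∀ η : ℝ, 0 ≤ η → d * (min (4 * (∑ i, recip (m i)) / 7) (20 / 37)) + κ + η < γ → ∃ B : ℝ, ∀ y : ℝ, 1 ≤ y →
        P {ω | ∃ n ∈ A ω, y ≤ (n : ℝ) ∧ ∃ x : K, IsIntegral S m x ∧ |relHeight x - G n| ≤ (n : ℝ) ^ κ} ≤
          ENNReal.ofReal (B * y ^ (-η))) ∧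
    ∀ α d : ℝ, 0 < α → 1 ≤ d → Expanding (fun v => α * (v : ℝ) ^ d) d := by
  refine ⟨fun K _ _ S m hm hσ G d hG κ hκ hκ1 Ω _ P A γ D hA => ?_, fun α d hα hd => expanding_pow hα hd⟩
  exact rand_windows {x : K | IsIntegral S m x} (fun x => relHeight x) hG (s := min (4 * (∑ i, recip (m i)) / 7) (20 / 37)) (κ := κ)
    (s_nonneg m) hκ hκ1 (count K S m hm hσ) hA

end Pool.Agent.Results.MP_464c42_nt.RandomSets
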