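import Pool.Agent.N671.DA.Win
import Pool.Agent.K6.H40.Campana

/-!
# Integral points of C-pairs of general type on the line near functions of the denominators of good approximations

Let `K` be a number field of degree `D`, `S` a finite set of primes of `K` and `m_0, m_1, m_2 ∈ {1, 2, …, ∞}` with
`σ = 1 / m_0 + 1 / m_1 + 1 / m_2 < 1`, so that the C-pair
`Δ = (1 - 1 / m_0) (0) + (1 - 1 / m_1) (1) + (1 - 1 / m_2) (∞)` on the projective line is of general type. Let
`s = min (4 σ / 7) (20 / 37)`, and `H_K(x) = exp (D h(x))` the relative height, `h` the absolute logarithmic height.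

Let `α_1, …, α_l` be real numbers. We consider the natural numbers `q` with `‖q α_j - β_j‖ ≤ c q ^ (-τ)` for all `j`, `‖x‖`
the distance to the nearest integer; for `β = 0`, `c = 1`, `τ = 1 / l` these include the denominators of all best
simultaneous approximations (the denominators of the convergents for `l = 1`). They form a very sparse sequence, with gaps
growing exponentially for almost all `α` if `τ = 1 / l`. We show: let `G` be a function with steps bounded below by a positive
constant and growth at most `v ^ d`, for example `a v ^ d`, and `0 ≤ κ ≤ 1`. For all `α` in `ℝ^l` outside a set of Hausdorff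
dimension at most `(l + d s + κ) / (1 + τ)`, and all `c`, for all but finitely many such `q` there is NO `S`-integral point `x ∈ K` of the C-pair
with `|H_K(x) - G q| ≤ q ^ κ`. For `τ = 1 / l` the bound is less than `l` if `d s + κ < 1`; and so the statement holds
for almost all `α`.

Proof. By the starting theorem `OrbifoldLines` of this problem the C-pair has at most `X ^ (s + ε)` integral points of
relative height at most `X`. So the `q` such that there is one of them near `G q` form a set
with `O (X ^ (d s + κ + ε))` elements up to `X`; and the `α` with `‖q α_j - β_j‖ ≤ c q ^ (-τ)` for all `j` and infinitely many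
`q` of such a set are covered by few small cubes (tool of helper671, `N671/DA`).
-/

set_option autoImplicit false

namespace Pool.Agent.Results.MP_464c42_nt.SimultaneousApproximations

open Pool.Agent.N671.DA (Solves Expanding expanding_pow approx_windows)
open NumberField IsDedekindDomain
open Pool.Agent.Results.MP_464c42_nt.HeightWindows (recip IsIntegral height)
open Pool.Agent.K6.H40.Campana (s_nonneg relHeight count)

/-- **Integral points of C-pairs of general type on the line near the denominators of good approximations.** Let `K` be a number field, `S` a finite set of primes and `m_0, m_1, m_2 ∈ {1, 2, …, ∞}` with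
`σ = 1 / m_0 + 1 / m_1 + 1 / m_2 < 1`, `s = min (4 σ / 7) (20 / 37)`. Let `G` have steps `≥ a > 0` and growth
at most `v ^ d`, `0 ≤ κ ≤ 1`, `β` in `ℝ^l` and `τ > 0`. For all `α` in `ℝ^l` outside a set of Hausdorff dimension at most
`(l + d s + κ) / (1 + τ)` and all `c`, for all large `q` with `‖q α_j - β_j‖ ≤ c q ^ (-τ)` for all `j`
(`Solves α β q (c q ^ (-τ))`), there is no `S`-integral point `x ∈ K` of the C-pair with `|H_K(x) - G q| ≤ q ^ κ`. In particular, for
`τ = 1 / l` and `d s + κ < 1` this holds for all `α` outside a set of dimension less than `l`. The functions `a v ^ d` with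
`a > 0`, `d ≥ 1` are examples of `G`. -/
theorem result :
    (∀ (K : Type) [Field K] [NumberField K] (S : Finset (HeightOneSpectrum (𝓞 K))) (m : Fin 3 → ℕ∞),
      (∀ i, 1 ≤ m i) → ∑ i, recip (m i) < 1 → ∀ (G : ℕ → ℝ) (d : ℝ), Expanding G d → ∀ κ : ℝ, 0 ≤ κ → κ ≤ 1 →
      ∀ (l : ℕ) (β : Fin l → ℝ) (τ : ℝ), 0 < τ →
      ∃ E : Set (Fin l → ℝ), dimH E ≤ ENNReal.ofReal ((l + (d * (min (4 * (∑ i, recip (m i)) / 7) (20 / 37)) + κ)) / (1 + τ)) ∧
        ∀ α, α ∉ E → ∀ c : ℝ, ∃ Q : ℕ, ∀ q : ℕ, Q ≤ q → Solves α β q (c * (q : ℝ) ^ (-τ)) →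
          ∀ x : K, IsIntegral S m x → ¬ |relHeight x - G q| ≤ (q : ℝ) ^ κ) ∧
    (∀ (l : ℕ) (s : ℝ), 1 ≤ l → s < 1 → ((l : ℝ) + s) / (1 + 1 / (l : ℝ)) < l) ∧
    ∀ α d : ℝ, 0 < α → 1 ≤ d → Expanding (fun v => α * (v : ℝ) ^ d) d := by
  refine ⟨fun K _ _ S m hm hσ G d hG κ hκ hκ1 l β τ hτ => ?_, fun l s hl hs => ?_, fun α d hα hd => expanding_pow hα hd⟩
  · obtain ⟨E, hE, hE2⟩ := approx_windows {x : K | IsIntegral S m x} (fun x => relHeight x) hG (s := min (4 * (∑ i, recip (m i)) / 7) (20 / 37)) (κ := κ)
      (s_nonneg m) hκ hκ1 (count K S m hm hσ) β hτ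
    exact ⟨E, hE, fun α hα c => by
      obtain ⟨Q, hQ⟩ := hE2 α hα c
      exact ⟨Q, fun q hq h1 x hx => hQ q hq h1 x hx⟩⟩
  · have hm0 : (0 : ℝ) < l := by exact_mod_cast (by omega : 0 < l)
    rw [div_lt_iff₀ (by positivity)]
    field_simp
    nlinarith

end Pool.Agent.Results.MP_464c42_nt.SimultaneousApproximations
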