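import Pool.Agent.N760.IT.C
import Pool.Agent.K6.H40.Campana

/-!
# Integral points of C-pairs of general type on the line near the members of almost all orbits of Euler's function

Let `K` be a number field of degree `D`, `S` a finite set of primes of `K` and `m_0, m_1, m_2 ∈ {1, 2, …, ∞}` with
`σ = 1 / m_0 + 1 / m_1 + 1 / m_2 < 1`, so that the C-pair
`Δ = (1 - 1 / m_0) (0) + (1 - 1 / m_1) (1) + (1 - 1 / m_2) (∞)` on the projective line is of general type. Let
`s = min (4 σ / 7) (20 / 37)`, and `H_K(x) = exp (D h(x))` the relative height, `h` the absolute logarithmic height.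

Let `φ_k` be the `k`-th iterate of Euler's function, `φ_0(n) = n`. Let `f` be a positive multiplicative function of at most
polynomial growth such that `f p ≤ M p` for the large primes `p`, with different values at different large primes; for
example the identity, Euler's function or the sum of the divisors. Let `G` have steps bounded below by a positive constant
and growth at most `v ^ d`, for example `α v ^ d` with `α > 0`, `d ≥ 1`. If `d s + κ < 1`, then there is a function `J(n)`
tending to infinity such that for almost all `n`, for all `k ≤ J(n)`, with `v = f(φ_k(n))`, there is NO `S`-integral point `x ∈ K` of the C-pair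
with `|H_K(x) - G v| ≤ v ^ κ`.

The iterates of Euler's function are not multiplicative, their values form a very thin set and are taken with very large
multiplicities, and so this does not follow from the number of these objects alone.

Proof. By the starting theorem `OrbifoldLines` of this problem the C-pair has at most `X ^ (s + ε)` integral points of
relative height at most `X`. Let `P` be the largest prime factor of `n`; for most `n` it is
greater than a power of `n` close to `1 / L`, `L → ∞` slowly; `P - 1` divides `φ(n)`, and so on: one finds that `f(φ_k(n))` is,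
outside a set of density `0`, determined by few data, and falls into a set with a power saving rarely (tool of helper760,
`N760/IT`).
-/

set_option autoImplicit false

namespace Pool.Agent.Results.MP_464c42_nt.TotientOrbits

open Filter
open Pool.Agent.N733.TG (LM Expanding lm_totient lm_sigma expanding_pow)
open Pool.Agent.N760.IT (orb lm_id orbit_windows)
open Pool.Agent.N826.IT.Orb (AlmostAll almostAll_mono)
open NumberField IsDedekindDomain
open Pool.Agent.Results.MP_464c42_nt.HeightWindows (recip IsIntegral height)
open Pool.Agent.K6.H40.Campana (s_nonneg relHeight count)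

/-- **Integral points of C-pairs of general type on the line near the orbits of Euler's function.** Let `K` be a number field, `S` a finite set of primes and `m_0, m_1, m_2 ∈ {1, 2, …, ∞}` with
`σ = 1 / m_0 + 1 / m_1 + 1 / m_2 < 1`, `s = min (4 σ / 7) (20 / 37)`. `orb f k n` is `f(φ_k(n))`, `φ_k` the `k`-th
iterate of Euler's function, `φ_0(n) = n`. Let `f` be multiplicative and positive, of at most polynomial growth, with
`f p ≤ M p` at the large primes, and injective there. Let `G` have steps `≥ a > 0` and growth at most `v ^ d`, `κ ≥ 0` and
`d s + κ < 1`. There is `J(n)` tending to infinity such that for almost all `n` (all `n ≤ N` but `o(N)`), for all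
`k ≤ J(n)`, there is no `S`-integral point `x ∈ K` of the C-pair with `|H_K(x) - G (f (φ_k n))| ≤ f(φ_k(n)) ^ κ`. The identity, Euler's function
and the sum of the divisors are examples of such functions `f`, and `α v ^ d` with `α > 0`, `d ≥ 1` is an example of `G`. -/
theorem result :
    (∀ (K : Type) [Field K] [NumberField K] (S : Finset (HeightOneSpectrum (𝓞 K))) (m : Fin 3 → ℕ∞),
      (∀ i, 1 ≤ m i) → ∑ i, recip (m i) < 1 → ∀ f : ℕ → ℕ, LM f → ∀ (G : ℕ → ℝ) (d : ℝ), Expanding G d → ∀ κ : ℝ, 0 ≤ κ →
      d * (min (4 * (∑ i, recip (m i)) / 7) (20 / 37)) + κ < 1 → ∃ J : ℕ → ℕ, Tendsto J atTop atTop ∧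
        AlmostAll (fun n => ∀ k ≤ J n, ∀ x : K, IsIntegral S m x → ¬ |relHeight x - G (orb f k n)| ≤ (orb f k n : ℝ) ^ κ)) ∧
    (LM (fun m => m) ∧ LM Nat.totient ∧ LM (fun m => ∑ d ∈ m.divisors, d)) ∧
    ∀ α d : ℝ, 0 < α → 1 ≤ d → Expanding (fun v => α * (v : ℝ) ^ d) d := by
  refine ⟨fun K _ _ S m hm hσ f hf G d hG κ hκ h1 => ?_, ⟨lm_id, lm_totient, lm_sigma⟩, fun α d hα hd => expanding_pow hα hd⟩
  obtain ⟨J, hJ, hJ2⟩ := orbit_windows {x : K | IsIntegral S m x} (fun x => relHeight x) hf hG (s := min (4 * (∑ i, recip (m i)) / 7) (20 / 37)) (κ := κ)
    (s_nonneg m) hκ h1 (count K S m hm hσ)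
  exact ⟨J, hJ, almostAll_mono hJ2 (fun n hn k hk x hx => hn k hk x hx)⟩

end Pool.Agent.Results.MP_464c42_nt.TotientOrbits
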